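import Mathlib

/-!
# The Devlin-Shelah weak diamond, proved from `2 ^ ℵ₀ < 2 ^ ℵ₁`

`W` is a well-ordered type of cardinality `ℵ₁` all whose proper initial segments are countable
(it will be instantiated with the type of countable ordinals).
-/

open Cardinal Set Order

universe v w

set_option linter.unusedSectionVars false

namespace Pool.Agent.Work.MP_66bd88_lc

section sequences

variable {W : Type v} [LinearOrder W] [WellFoundedLT W] [NoMaxOrder W] [Nonempty W]

/-- Extensionality for coded initial segments. -/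
theorem sigma_ext {U : Type w} {β β' : W} {f f' : W → U}
    (h : (⟨β, fun b : Iio β => f b⟩ : Σ b : W, (Iio b → U)) = ⟨β', fun b : Iio β' => f' b⟩) :
    β = β' ∧ ∀ b < β, f b = f' b := by
  obtain ⟨h1, h2⟩ := Sigma.mk.inj_iff.1 h
  subst h1
  have h3 := eq_of_heq h2
  exact ⟨rfl, fun b hb => congrFun h3 ⟨b, hb⟩⟩

/-- A stage of the construction. -/
structure Stage (W : Type v) (V : Type w) where
  h : W → ℕ → Bool
  Y : W → ℕ → V
  C : Set W

variable {V : Type w}

/-- Some element of `C` above `a`, the least one. -/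
noncomputable def nxt (C : Set W) (a : W) : W :=
  open Classical in
  if hne : {x | x ∈ C ∧ a < x}.Nonempty then WellFounded.min wellFounded_lt _ hne else a

theorem nxt_nonempty {C : Set W} (hC : IsClub C) (a : W) : {x | x ∈ C ∧ a < x}.Nonempty := by
  obtain ⟨b, hb⟩ := exists_gt a
  obtain ⟨c, hc, hbc⟩ := hC.isCofinal b
  exact ⟨c, hc, lt_of_lt_of_le hb hbc⟩

theorem nxt_spec {C : Set W} (hC : IsClub C) (a : W) : nxt C a ∈ C ∧ a < nxt C a := by
  unfold nxt
  rw [dif_pos (nxt_nonempty hC a)]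
  exact WellFounded.min_mem wellFounded_lt _ (nxt_nonempty hC a)

theorem nxt_le {C : Set W} (hC : IsClub C) {a x : W} (hx : x ∈ C) (hax : a < x) :
    nxt C a ≤ x := by
  unfold nxt
  rw [dif_pos (nxt_nonempty hC a)]
  exact not_lt.1 (WellFounded.not_lt_min wellFounded_lt _ (show x ∈ {x | x ∈ C ∧ a < x} from ⟨hx, hax⟩))

theorem nxt_mono {C C' : Set W} (hC : IsClub C) (hC' : IsClub C') (h : C' ⊆ C) (a : W) :
    nxt C a ≤ nxt C' a :=
  nxt_le hC (h (nxt_spec hC' a).1) (nxt_spec hC' a).2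

variable (code : (Σ b : W, (Iio b → (ℕ → Bool) × (ℕ → V))) → (ℕ → Bool))
  (Yf : (W → ℕ → Bool) → (W → ℕ → V)) (Cf : (W → ℕ → Bool) → Set W)

/-- The next stage. -/
noncomputable def step (s : Stage W V) : Stage W V where
  h := fun a => code ⟨nxt s.C a, fun b => (s.h b, s.Y b)⟩
  Y := Yf (fun a => code ⟨nxt s.C a, fun b => (s.h b, s.Y b)⟩)
  C := s.C ∩ Cf (fun a => code ⟨nxt s.C a, fun b => (s.h b, s.Y b)⟩)

/-- The sequence of stages. -/
noncomputable def seq (h0 : W → ℕ → Bool) : ℕ → Stage W V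
  | 0 => ⟨h0, Yf h0, Cf h0⟩
  | n + 1 => step code Yf Cf (seq h0 n)

theorem seq_succ_h (h0 : W → ℕ → Bool) (n : ℕ) (a : W) :
    (seq code Yf Cf h0 (n + 1)).h a = code ⟨nxt (seq code Yf Cf h0 n).C a,
      fun b => ((seq code Yf Cf h0 n).h b, (seq code Yf Cf h0 n).Y b)⟩ := rfl

theorem seq_Y (h0 : W → ℕ → Bool) (n : ℕ) :
    (seq code Yf Cf h0 n).Y = Yf (seq code Yf Cf h0 n).h := by
  cases n <;> rfl

theorem seq_C_sub (h0 : W → ℕ → Bool) (n : ℕ) :
    (seq code Yf Cf h0 n).C ⊆ Cf (seq code Yf Cf h0 n).h := by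
  cases n with
  | zero => exact subset_rfl
  | succ n => exact inter_subset_right

theorem seq_C_anti (h0 : W → ℕ → Bool) : Antitone fun n => (seq code Yf Cf h0 n).C :=
  antitone_nat_of_succ_le fun _ => inter_subset_left

theorem seq_isClub (hcof : Order.cof W ≠ ℵ₀) (hCf : ∀ h, IsClub (Cf h)) (h0 : W → ℕ → Bool)
    (n : ℕ) : IsClub (seq code Yf Cf h0 n).C := by
  induction n with
  | zero => exact hCf _
  | succ n ih => exact IsClub.inter hcof ih (hCf _)

/-- Agreement of two sequences of stages below `a`. -/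
def Agree (s s' : ℕ → Stage W V) (a : W) : Prop :=
  ∀ n, ∀ b < a, (s n).h b = (s' n).h b ∧ (s n).Y b = (s' n).Y b

variable {code Yf Cf}

theorem agree_pred (hcode : Function.Injective code) (hcof : Order.cof W ≠ ℵ₀)
    (hCf : ∀ h, IsClub (Cf h)) {h0 h0' : W → ℕ → Bool} (b : W) (n : ℕ)
    (heq : (seq code Yf Cf h0 (n + 1)).h b = (seq code Yf Cf h0' (n + 1)).h b) :
    nxt (seq code Yf Cf h0 n).C b = nxt (seq code Yf Cf h0' n).C b ∧
    ∀ c < nxt (seq code Yf Cf h0 n).C b, (seq code Yf Cf h0 n).h c = (seq code Yf Cf h0' n).h c ∧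
      (seq code Yf Cf h0 n).Y c = (seq code Yf Cf h0' n).Y c := by
  rw [seq_succ_h, seq_succ_h] at heq
  have h1 := sigma_ext (f := fun b => ((seq code Yf Cf h0 n).h b, (seq code Yf Cf h0 n).Y b))
    (f' := fun b => ((seq code Yf Cf h0' n).h b, (seq code Yf Cf h0' n).Y b)) (hcode heq)
  refine ⟨h1.1, fun c hc => ?_⟩
  exact Prod.ext_iff.1 (h1.2 c hc)

theorem agree_down (hcode : Function.Injective code) (hcof : Order.cof W ≠ ℵ₀)
    (hCf : ∀ h, IsClub (Cf h)) {h0 h0' : W → ℕ → Bool} (b : W) (k : ℕ) : ∀ m : ℕ,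
    (seq code Yf Cf h0 (m + k)).h b = (seq code Yf Cf h0' (m + k)).h b →
    (seq code Yf Cf h0 m).h b = (seq code Yf Cf h0' m).h b := by
  induction k with
  | zero => exact fun m h => h
  | succ k ih =>
    intro m h
    apply ih m
    have h2 := agree_pred hcode hcof hCf b (m + k) h
    exact (h2.2 b (nxt_spec (seq_isClub code Yf Cf hcof hCf h0 (m + k)) b).2).1

attribute [local instance] WellFoundedLT.toOrderBot WellFoundedLT.conditionallyCompleteLinearOrderBot

theorem agree_step (hcode : Function.Injective code) (hcof : ℵ₀ < Order.cof W)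
    (hCf : ∀ h, IsClub (Cf h)) 
    (F1 : ∀ a : W, (Iio a → ℕ → V) → ℕ → Bool)
    (hY : ∀ h, ∀ a ∈ Cf h, F1 a (fun b => Yf h b) = h a)
    {h0 h0' : W → ℕ → Bool} (a : W)
    (ha : ∀ n, a ∈ (seq code Yf Cf h0 n).C) (ha' : ∀ n, a ∈ (seq code Yf Cf h0' n).C)
    (hag : Agree (seq code Yf Cf h0) (seq code Yf Cf h0') a) :
    ∃ d, a < d ∧ (∀ n, d ∈ (seq code Yf Cf h0 n).C) ∧ (∀ n, d ∈ (seq code Yf Cf h0' n).C) ∧
      Agree (seq code Yf Cf h0) (seq code Yf Cf h0') d := by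
  -- values at `a` agree
  have h1 : ∀ n, (seq code Yf Cf h0 n).h a = (seq code Yf Cf h0' n).h a := by
    intro n
    rw [← hY _ a (seq_C_sub code Yf Cf h0 n (ha n)), ← hY _ a (seq_C_sub code Yf Cf h0' n (ha' n)),
      ← seq_Y code Yf Cf h0 n, ← seq_Y code Yf Cf h0' n]
    congr 1
    funext b
    exact (hag n b b.2).2
  have h2 := fun n => agree_pred hcode hcof.ne' hCf a n (h1 (n + 1))
  have hclub := fun n => seq_isClub code Yf Cf hcof.ne' hCf h0 n
  have hclub' := fun n => seq_isClub code Yf Cf hcof.ne' hCf h0' n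
  let β : ℕ → W := fun n => nxt (seq code Yf Cf h0 n).C a
  have hβmono : Monotone β := monotone_nat_of_le_succ fun n =>
    nxt_mono (hclub n) (hclub (n + 1)) (seq_C_anti code Yf Cf h0 (Nat.le_succ n)) a
  have hβbdd : BddAbove (range β) := by
    refine .of_not_isCofinal fun hg ↦ (Order.cof_le hg).not_gt (hcof.trans_le' ?_)
    exact (Set.countable_range β).le_aleph0
  have hmem : ∀ n, β n ∈ (seq code Yf Cf h0 n).C := fun n => (nxt_spec (hclub n) a).1
  have hmem' : ∀ n, β n ∈ (seq code Yf Cf h0' n).C := fun n => by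
    have h3 := (h2 n).1
    show nxt (seq code Yf Cf h0 n).C a ∈ _
    rw [h3]
    exact (nxt_spec (hclub' n) a).1
  have hlub : ∀ m, IsLUB (β '' Ici m) (⨆ n, β n) := by
    intro m
    refine ⟨?_, ?_⟩
    · rintro _ ⟨n, -, rfl⟩
      exact le_ciSup hβbdd n
    · intro x hx
      refine ciSup_le fun n => ?_
      exact (hβmono (le_max_left n m)).trans (hx ⟨max n m, le_max_right n m, rfl⟩)
  refine ⟨⨆ n, β n, ?_, ?_, ?_, ?_⟩
  · exact lt_of_lt_of_le (nxt_spec (hclub 0) a).2 (le_ciSup hβbdd 0)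
  · intro m
    refine (hclub m).isLUB_mem (t := β '' Ici m) ?_ ⟨β m, Set.mem_image_of_mem β Set.self_mem_Ici⟩ (hlub m)
    rintro _ ⟨n, hn, rfl⟩
    exact seq_C_anti code Yf Cf h0 hn (hmem n)
  · intro m
    refine (hclub' m).isLUB_mem (t := β '' Ici m) ?_ ⟨β m, Set.mem_image_of_mem β Set.self_mem_Ici⟩ (hlub m)
    rintro _ ⟨n, hn, rfl⟩
    exact seq_C_anti code Yf Cf h0' hn (hmem' n)
  · intro m b hb
    obtain ⟨n0, hn0⟩ := exists_lt_of_lt_ciSup hb
    have hn1 : b < β (n0 + m + 1) := lt_of_lt_of_le hn0 (hβmono (by omega))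
    have h4 := ((h2 (n0 + m + 1)).2 b hn1).1
    -- go down to `m + 1`
    have h5 : (seq code Yf Cf h0 (m + 1)).h b = (seq code Yf Cf h0' (m + 1)).h b := by
      apply agree_down hcode hcof.ne' hCf b n0 (m + 1)
      have : m + 1 + n0 = n0 + m + 1 := by omega
      rw [this]
      exact h4
    exact (agree_pred hcode hcof.ne' hCf b m h5).2 b (nxt_spec (hclub m) b).2

theorem agree_all (hcode : Function.Injective code) (hcof : ℵ₀ < Order.cof W)
    (hCf : ∀ h, IsClub (Cf h)) 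
    (F1 : ∀ a : W, (Iio a → ℕ → V) → ℕ → Bool)
    (hY : ∀ h, ∀ a ∈ Cf h, F1 a (fun b => Yf h b) = h a)
    {h0 h0' : W → ℕ → Bool} (a : W)
    (ha : ∀ n, a ∈ (seq code Yf Cf h0 n).C) (ha' : ∀ n, a ∈ (seq code Yf Cf h0' n).C)
    (hag : Agree (seq code Yf Cf h0) (seq code Yf Cf h0') a) : h0 = h0' := by
  have hclub := fun n => seq_isClub code Yf Cf hcof.ne' hCf h0 n
  have hclub' := fun n => seq_isClub code Yf Cf hcof.ne' hCf h0' n
  let D : Set W := {d | (∀ n, d ∈ (seq code Yf Cf h0 n).C) ∧ (∀ n, d ∈ (seq code Yf Cf h0' n).C) ∧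
      Agree (seq code Yf Cf h0) (seq code Yf Cf h0') d}
  have hD0 : D.Nonempty := ⟨a, ha, ha', hag⟩
  have hDub : ¬ BddAbove D := by
    intro hbdd
    have hl : IsLUB D (sSup D) := isLUB_csSup hD0 hbdd
    have h1 : sSup D ∈ D := by
      refine ⟨fun n => ?_, fun n => ?_, fun n b hb => ?_⟩
      · exact (hclub n).isLUB_mem (fun x hx => hx.1 n) hD0 hl
      · exact (hclub' n).isLUB_mem (fun x hx => hx.2.1 n) hD0 hl
      · obtain ⟨x, hx, hbx⟩ := exists_lt_of_lt_csSup hD0 hb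
        exact hx.2.2 n b hbx
    obtain ⟨d, hd, hd1, hd2, hd3⟩ := agree_step hcode hcof hCf F1 hY (sSup D) h1.1 h1.2.1 h1.2.2
    exact absurd (hl.1 (show d ∈ D from ⟨hd1, hd2, hd3⟩)) (not_le.2 hd)
  funext b
  rw [not_bddAbove_iff] at hDub
  obtain ⟨d, hd, hbd⟩ := hDub b
  exact (hd.2.2 0 b hbd).1

end sequences

section cardinals

variable {W : Type v} [LinearOrder W] [WellFoundedLT W]

theorem mk_fun_le {U : Type v} (hU : #U ≤ 𝔠) {A : Type v} [Countable A] : #(A → U) ≤ 𝔠 := by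
  rw [← Cardinal.power_def]
  calc #U ^ #A ≤ 𝔠 ^ #A := Cardinal.power_le_power_right hU
    _ ≤ 𝔠 ^ ℵ₀ := Cardinal.power_le_power_left Cardinal.continuum_ne_zero Cardinal.mk_le_aleph0
    _ = 𝔠 := Cardinal.continuum_power_aleph0

theorem mk_nat_fun_le {U : Type v} (hU : #U ≤ 𝔠) : #(ℕ → U) ≤ 𝔠 := by
  have h1 : #(ℕ → U) = #(ULift.{v} ℕ → U) :=
    Cardinal.mk_congr (Equiv.arrowCongr Equiv.ulift.symm (Equiv.refl U))
  rw [h1]
  exact mk_fun_le hU

theorem mk_sigma_le {P : W → Type v} (hW : #W ≤ 𝔠) (hP : ∀ b, #(P b) ≤ 𝔠) :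
    #(Σ b : W, P b) ≤ 𝔠 := by
  rw [Cardinal.mk_sigma]
  refine (Cardinal.sum_le_sum _ (fun _ => 𝔠) hP).trans ?_
  rw [Cardinal.sum_const']
  exact (mul_le_mul_left hW 𝔠).trans Cardinal.continuum_mul_self.le

end cardinals

/-- **Weak diamond** (Devlin-Shelah). If `2 ^ ℵ₀ < 2 ^ ℵ₁` then for every `F` there is `g : W → Bool`
guessing `F` of the initial segments of every `X : W → V` stationarily often, where `W` is a
well-order of type `ω₁` and `#V ≤ 𝔠`. -/
theorem weak_diamond {W : Type v} [LinearOrder W] [WellFoundedLT W] [NoMaxOrder W] [Nonempty W]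
    (hcof : ℵ₀ < Order.cof W) (hW : #W = ℵ₁) (hcount : ∀ a : W, (Iio a).Countable)
    {V : Type v} (hV : #V ≤ 𝔠)
    (hwd : (2 : Cardinal.{v}) ^ ℵ₀ < 2 ^ ℵ₁)
    (F : ∀ a : W, (Iio a → V) → Bool) :
    ∃ g : W → Bool, ∀ X : W → V, IsStationary {a : W | F a (fun b => X b) = g a} := by
  classical
  by_contra hcon
  push Not at hcon
  -- negation of weak diamond in positive form
  have H : ∀ h : W → Bool, ∃ X : W → V, ∃ C : Set W, IsClub C ∧
      ∀ a ∈ C, F a (fun b => X b) = h a := by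
    intro h
    obtain ⟨X, hX⟩ := hcon (fun a => !(h a))
    rw [not_isStationary_iff] at hX
    obtain ⟨C, hC, hdis⟩ := hX
    refine ⟨X, C, hC, fun a ha => ?_⟩
    by_contra hne
    have h2 : a ∈ {a : W | F a (fun b => X b) = !(h a)} := by
      show F a (fun b => X b) = !(h a)
      cases h3 : F a (fun b => X b) <;> cases h4 : h a <;> simp_all
    exact (Set.disjoint_left.1 hdis h2) ha
  have H1 : ∀ h : W → ℕ → Bool, ∃ Y : W → ℕ → V, ∃ C : Set W, IsClub C ∧
      ∀ a ∈ C, (fun i => F a (fun b => Y b i)) = h a := by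
    intro h
    choose X C hC hX using fun i : ℕ => H (fun a => h a i)
    refine ⟨fun b i => X i b, ⋂ i, C i, IsClub.iInter_of_countable hcof.ne' hC, fun a ha => ?_⟩
    funext i
    exact hX i a (Set.mem_iInter.1 ha i)
  choose Yf Cf hCf hY using H1
  have hWc : #W ≤ 𝔠 := hW ▸ Cardinal.aleph_one_le_continuum
  -- an injective code of initial segments
  have hcard1 : #(ℕ → V) ≤ 𝔠 := mk_nat_fun_le hV
  have hcard2 : #((ℕ → Bool) × (ℕ → V)) ≤ 𝔠 := by
    rw [Cardinal.mk_prod]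
    have h1 : Cardinal.lift.{v} #(ℕ → Bool) = 𝔠 := by
      simp
    have h2 : Cardinal.lift.{0} #(ℕ → V) ≤ 𝔠 := by
      rw [Cardinal.lift_uzero]
      exact hcard1
    calc _ ≤ 𝔠 * 𝔠 := mul_le_mul' h1.le h2
      _ = 𝔠 := Cardinal.continuum_mul_self
  have hcard3 : ∀ b : W, #(Iio b → (ℕ → Bool) × (ℕ → V)) ≤ 𝔠 := by
    intro b
    have : Countable (Iio b) := (hcount b).to_subtype
    exact mk_fun_le hcard2
  have hcard4 : #(Σ b : W, (Iio b → (ℕ → Bool) × (ℕ → V))) ≤ 𝔠 := mk_sigma_le hWc hcard3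
  have hcode : ∃ code : (Σ b : W, (Iio b → (ℕ → Bool) × (ℕ → V))) → (ℕ → Bool),
      Function.Injective code := by
    have h1 : Cardinal.lift.{0} #(Σ b : W, (Iio b → (ℕ → Bool) × (ℕ → V))) ≤
        Cardinal.lift.{v} #(ℕ → Bool) := by
      rw [Cardinal.lift_uzero]
      refine hcard4.trans ?_
      simp
    obtain ⟨e⟩ := Cardinal.lift_mk_le'.1 h1
    exact ⟨e, e.injective⟩
  obtain ⟨code, hcode⟩ := hcode
  -- the final injection
  have hclub := fun (h0 : W → ℕ → Bool) (n : ℕ) => seq_isClub code Yf Cf hcof.ne' hCf h0 n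
  have hpt : ∀ h0 : W → ℕ → Bool, ∃ a : W, ∀ n, a ∈ (seq code Yf Cf h0 n).C := by
    intro h0
    obtain ⟨a, ha⟩ := (IsClub.iInter_of_countable hcof.ne' (hclub h0)).nonempty
    exact ⟨a, fun n => Set.mem_iInter.1 ha n⟩
  choose pt hpt using hpt
  let Φ : (W → Bool) → (Σ a : W, (ℕ → (Iio a → (ℕ → Bool) × (ℕ → V)))) := fun g =>
    ⟨pt (fun a _ => g a), fun n b => ((seq code Yf Cf (fun a _ => g a) n).h b,
      (seq code Yf Cf (fun a _ => g a) n).Y b)⟩
  have hΦ : Function.Injective Φ := by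
    intro g g' hgg
    obtain ⟨h1, h2⟩ := Sigma.mk.inj_iff.1 hgg
    have hag : Agree (seq code Yf Cf (fun a _ => g a)) (seq code Yf Cf (fun a _ => g' a))
        (pt (fun a _ => g a)) := by
      intro n b hb
      have key : ∀ (x y : W) (f : ℕ → (Iio x → (ℕ → Bool) × (ℕ → V)))
          (f' : ℕ → (Iio y → (ℕ → Bool) × (ℕ → V))), x = y → HEq f f' →
          ∀ (n : ℕ) (b : W) (hb : b < x) (hb' : b < y), f n ⟨b, hb⟩ = f' n ⟨b, hb'⟩ := by
        intro x y f f' hxy hff n b hb hb'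
        subst hxy
        rw [eq_of_heq hff]
      have h3 := key _ _ _ _ h1 h2 n b hb (h1 ▸ hb)
      exact Prod.ext_iff.1 h3
    have h4 := agree_all hcode hcof hCf (fun a Y i => F a (fun b => Y b i)) hY
      (pt (fun a _ => g a)) (hpt _) (by
        intro n
        have h5 := hpt (fun a _ => g' a) n
        rwa [← h1] at h5) hag
    funext a
    exact congrFun (congrFun h4 a) 0
  have hle : #(W → Bool) ≤ 𝔠 := by
    refine (Cardinal.mk_le_of_injective hΦ).trans ?_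
    exact mk_sigma_le hWc (fun b => mk_nat_fun_le (hcard3 b))
  have hle2 : (2 : Cardinal.{v}) ^ ℵ₁ ≤ 𝔠 := by
    have : #(W → Bool) = 2 ^ ℵ₁ := by
      rw [← hW]
      simp
    rw [← this]
    exact hle
  rw [← Cardinal.two_power_aleph0] at hle2
  exact absurd hle2 (not_le.2 hwd)

end Pool.Agent.Work.MP_66bd88_lc
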